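import Mathlib
import Pool.Agent.W474.Ver.Defs
import Pool.Agent.W474.Ver.Count
import Pool.Agent.W474.Ver.Sanity

/-!
# The normality conjecture for the Betti numbers of Veronese embeddings fails

For the Veronese embeddings of `ℙ⁸` and `q = 8`, no function `F(d)` rescales the Betti numbers
`k_{p,8}(ℙ⁸, 𝒪(d))` to the Gaussian shape. Along `d = 4 l` these Betti numbers, seen at distance
`√r_d / 2` below the middle `r_d / 2`, are at most `e^{-11/20}` times the middle one, while the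
Gaussian shape would give `e^{-1/2}`.
-/

namespace Pool.Agent.Results.MP_c48073_ag.NormalityFails

open Filter Topology Pool.Agent.W474.Ver

lemma h0_ge (d : ℕ) : d ≤ 40320 * h0 8 d := by
  refine le_trans ?_ (h0_lower d)
  calc d ≤ d + 1 := Nat.le_succ d
    _ = (d + 1) ^ 1 := (pow_one _).symm
    _ ≤ (d + 1) ^ 8 := Nat.pow_le_pow_right (Nat.succ_pos d) (by norm_num)

lemma tendsto_sqrt : Tendsto (fun d => Real.sqrt (rr 8 d)) atTop atTop := by
  refine Real.tendsto_sqrt_atTop.comp ?_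
  have h1 : Tendsto (fun d : ℕ => (d : ℝ) / 40320 - 1) atTop atTop :=
    tendsto_atTop_add_const_right _ _
      (tendsto_natCast_atTop_atTop.atTop_div_const (by norm_num))
  refine tendsto_atTop_mono (fun d => ?_) h1
  have h : (d : ℝ) ≤ 40320 * h0 8 d := by exact_mod_cast h0_ge d
  rw [rr]
  linarith

lemma mid_bound {d : ℕ} (hd : 10 ≤ d) :
    |((h0 8 d - 9 - mid d : ℕ) : ℝ) - rr 8 d / 2| ≤ 10 := by
  have h := room hd
  have h1 : (((h0 8 d - 9 - mid d : ℕ) : ℝ)) = h0 8 d - 9 - mid d := by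
    rw [Nat.cast_sub (by omega), Nat.cast_sub (by omega)]
    norm_num
  rw [h1, rr, abs_le]
  have h2 : (h0 8 d : ℝ) ≤ 2 * mid d + 1 := by
    have : h0 8 d ≤ 2 * mid d + 1 := by rw [mid]; omega
    exact_mod_cast this
  have h3 : 2 * (mid d : ℝ) ≤ h0 8 d := by
    have : 2 * mid d ≤ h0 8 d := by rw [mid]; omega
    exact_mod_cast this
  constructor <;> linarith

lemma lim0 : Tendsto (fun d => (((h0 8 d - 9 - mid d : ℕ) : ℝ) -
    (rr 8 d / 2 + 0 * Real.sqrt (rr 8 d) / 2)) / Real.sqrt (rr 8 d)) atTop (𝓝 0) := by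
  have h9 : Tendsto (fun d => 10 / Real.sqrt (rr 8 d)) atTop (𝓝 0) :=
    tendsto_sqrt.const_div_atTop 10
  apply squeeze_zero_norm' _ h9
  filter_upwards [eventually_ge_atTop 10] with d hd
  have hpos : 0 ≤ Real.sqrt (rr 8 d) := Real.sqrt_nonneg _
  rw [Real.norm_eq_abs, abs_div, abs_of_nonneg hpos]
  apply div_le_div_of_nonneg_right _ hpos
  have e : ((h0 8 d - 9 - mid d : ℕ) : ℝ) - (rr 8 d / 2 + 0 * Real.sqrt (rr 8 d) / 2) =
      ((h0 8 d - 9 - mid d : ℕ) : ℝ) - rr 8 d / 2 := by ring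
  rw [e]
  exact mid_bound hd

lemma lim1 : Tendsto (fun d => (((h0 8 d - 9 - mid d - ss d : ℕ) : ℝ) -
    (rr 8 d / 2 + (-1) * Real.sqrt (rr 8 d) / 2)) / Real.sqrt (rr 8 d)) atTop (𝓝 0) := by
  have h9 : Tendsto (fun d => 11 / Real.sqrt (rr 8 d)) atTop (𝓝 0) :=
    tendsto_sqrt.const_div_atTop 11
  apply squeeze_zero_norm' _ h9
  filter_upwards [eventually_ge_atTop 10] with d hd
  have hpos : 0 ≤ Real.sqrt (rr 8 d) := Real.sqrt_nonneg _
  rw [Real.norm_eq_abs, abs_div, abs_of_nonneg hpos]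
  apply div_le_div_of_nonneg_right _ hpos
  have h := room hd
  have h4 : (((h0 8 d - 9 - mid d - ss d : ℕ) : ℝ)) =
      ((h0 8 d - 9 - mid d : ℕ) : ℝ) - ss d := by
    rw [Nat.cast_sub (by omega)]
  have h5 := mid_bound hd
  have h6 := ss_le d
  have h7 := ss_ge d
  rw [abs_le] at h5 ⊢
  rw [h4]
  constructor <;> linarith

/-- **Disproof of the normality conjecture of Ein, Erman and Lazarsfeld.** For `n = q = 8` there
is no function `F` with `F(d) k_{p_d,8}(ℙ⁸, 𝒪(d)) → e^{-a²/2}` for every real `a` and every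
sequence `(p_d)` with `p_d = r_d/2 + a √r_d/2 + o(√r_d)`. -/
theorem result : ¬ ∃ F : ℕ → ℝ, ∀ (a : ℝ) (p : ℕ → ℕ),
    Tendsto (fun d => ((p d : ℝ) - (rr 8 d / 2 + a * Real.sqrt (rr 8 d) / 2)) /
      Real.sqrt (rr 8 d)) atTop (𝓝 0) →
    Tendsto (fun d => F d * (kpq 8 d (p d) 8 : ℝ)) atTop (𝓝 (Real.exp (-a ^ 2 / 2))) := by
  rintro ⟨F, hF⟩
  have hsub : Tendsto (fun l : ℕ => 2 * (2 * l)) atTop atTop :=
    tendsto_atTop_mono (fun l => by simp only [id_eq]; omega) tendsto_id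
  have h0' := (hF 0 _ lim0).comp hsub
  have h1' := (hF (-1) _ lim1).comp hsub
  have e0 : Real.exp (-(0 : ℝ) ^ 2 / 2) = 1 := by simp
  have e1 : Real.exp (-(-1 : ℝ) ^ 2 / 2) = Real.exp (-(1 / 2)) := by norm_num
  rw [e0] at h0'
  rw [e1] at h1'
  have h0'' := h0'.const_mul (Real.exp (-(11 / 20)))
  have hpos : ∀ᶠ l : ℕ in atTop, (1 / 2 : ℝ) <
      ((fun d => F d * (kpq 8 d (h0 8 d - 9 - mid d) 8 : ℝ)) ∘ fun l : ℕ => 2 * (2 * l)) l :=
    h0'.eventually (lt_mem_nhds (by norm_num))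
  have hle : ∀ᶠ l : ℕ in atTop,
      ((fun d => F d * (kpq 8 d (h0 8 d - 9 - mid d - ss d) 8 : ℝ)) ∘
        fun l : ℕ => 2 * (2 * l)) l ≤
      Real.exp (-(11 / 20)) *
        ((fun d => F d * (kpq 8 d (h0 8 d - 9 - mid d) 8 : ℝ)) ∘ fun l : ℕ => 2 * (2 * l)) l := by
    filter_upwards [hpos, eventually_ge_atTop 40] with l h1 hl
    simp only [Function.comp_apply] at h1 ⊢
    rw [k0 (by omega)] at h1 ⊢
    rw [k1 (by omega)]
    have hFpos : 0 ≤ F (2 * (2 * l)) := by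
      by_contra hneg
      push Not at hneg
      have := mul_nonpos_of_nonpos_of_nonneg hneg.le
        (kap_nonneg (2 * (2 * l)) (mid (2 * (2 * l))))
      linarith
    calc F (2 * (2 * l)) * kap (2 * (2 * l)) (mid (2 * (2 * l)) + ss (2 * (2 * l)))
        ≤ F (2 * (2 * l)) * (Real.exp (-(11 / 20)) *
            kap (2 * (2 * l)) (mid (2 * (2 * l)))) :=
          mul_le_mul_of_nonneg_left (decay hl) hFpos
      _ = _ := by ring
  have hfin := le_of_tendsto_of_tendsto h1' h0'' hle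
  rw [mul_one] at hfin
  have := Real.exp_le_exp.mp hfin
  norm_num at this

end Pool.Agent.Results.MP_c48073_ag.NormalityFails
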